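import Pool.Agent.H37.CNU.Stmts

/-!
# Board `cnu`, row UNO (helper1)
-/

set_option autoImplicit false

namespace Pool.CND

theorem uno_thm (hE : S_UNE) (hK : S_UNK) (hN : S_UNN) : S_UNO := by
  intro p k F _ _ _ f q σ hp hc hf hq hF hσ
  obtain ⟨L, fL, aL, t, X, ρ, P, hS⟩ := hE p k F f q σ hp hc hf hq hF hσ
  refine ⟨L, fL, aL, ρ, t, hK p k F L f q σ t X ρ P hp hc hf hq hF hσ hS, P, ?_,
    hN p k F L f q σ t X ρ P hp hc hf hq hF hσ hS⟩
  have hq2 : 2 ≤ q := by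
    rw [hq]
    calc 2 ≤ p := hp.two_le
      _ = p ^ 1 := (pow_one p).symm
      _ ≤ p ^ f := Nat.pow_le_pow_right hp.pos hf
  have h1 : 0 < q ^ 3 * (q ^ 2 - 1) := by
    refine Nat.mul_pos (by positivity) ?_
    have : 4 ≤ q ^ 2 := by nlinarith
    omega
  rw [hS.ord_t]
  omega

end Pool.CND
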